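import Mathlib

set_option autoImplicit false

namespace Pool.Agent.U884.OD.EX2

/-- the recursion of the kernel of the hessian -/
theorem core {L : Type} [Field L] [CharZero L] (n e : ℕ) (b : L) (hb : b ≠ 0) (y v : ℕ → L)
    (y0 : y 0 = 1) (v0 : v 0 = 0)
    (c1 : ∀ i < n, y i ^ (e + 2) + ((e : L) + 2) * y (i + 1) ^ (e + 1) * y (i + 2) = 0)
    (c2 : y n ^ (e + 2) + ((e : L) + 3) * b * y (n + 1) ^ (e + 2) = 0)
    (h1 : ∀ i < n, ((e : L) + 2) * y i ^ (e + 1) * v i +
      ((e : L) + 2) * (((e : L) + 1) * y (i + 1) ^ e * v (i + 1) * y (i + 2) +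
        y (i + 1) ^ (e + 1) * v (i + 2)) = 0)
    (h2 : ((e : L) + 2) * y n ^ (e + 1) * v n +
      ((e : L) + 3) * ((e : L) + 2) * b * y (n + 1) ^ (e + 1) * v (n + 1) = 0) :
    ∀ i ≤ n + 1, v i = 0 := by
  have e2 : ((e : L) + 2) ≠ 0 := by
    have : ((e + 2 : ℕ) : L) ≠ 0 := Nat.cast_ne_zero.2 (by omega)
    simpa using this
  have e3 : ((e : L) + 3) ≠ 0 := by
    have : ((e + 3 : ℕ) : L) ≠ 0 := Nat.cast_ne_zero.2 (by omega)
    simpa using this
  have yn : ∀ i ≤ n, y i ≠ 0 := by
    intro i
    induction i with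
    | zero => intro _; rw [y0]; exact one_ne_zero
    | succ i ih =>
      intro hi h
      have h0 := ih (by omega)
      have h3 := c1 i (by omega)
      rw [h] at h3
      rw [zero_pow (by omega)] at h3
      simp only [mul_zero, zero_mul, add_zero] at h3
      exact h0 (pow_eq_zero_iff (by omega) |>.1 h3)
  have yl : y (n + 1) ≠ 0 := by
    intro h
    rw [h, zero_pow (by omega)] at c2
    simp only [mul_zero, add_zero] at c2
    exact yn n le_rfl (pow_eq_zero_iff (by omega) |>.1 c2)
  have ya : ∀ i ≤ n + 1, y i ≠ 0 := by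
    intro i hi
    rcases Nat.lt_or_ge i (n + 1) with h | h
    · exact yn i (by omega)
    · have : i = n + 1 := by omega
      rw [this]; exact yl
  -- the ratios
  set u : ℕ → L := fun i => v i / y i with hu
  have hv : ∀ i ≤ n + 1, v i = y i * u i := by
    intro i hi
    have := ya i hi
    simp only [hu]
    field_simp
  have hrec : ∀ i < n, u (i + 2) - u (i + 1) = -((e : L) + 2) * (u (i + 1) - u i) := by
    intro i hi
    have hc := c1 i hi
    have hh := h1 i hi
    rw [hv i (by omega), hv (i + 1) (by omega), hv (i + 2) (by omega)] at hh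
    have hy1 := ya (i + 1) (by omega)
    have hy2 := ya (i + 2) (by omega)
    -- divide by e + 2
    have h3 : y i ^ (e + 1) * (y i * u i) + (((e : L) + 1) * y (i + 1) ^ e * (y (i + 1) * u (i + 1)) *
        y (i + 2) + y (i + 1) ^ (e + 1) * (y (i + 2) * u (i + 2))) = 0 := by
      have : ((e : L) + 2) * (y i ^ (e + 1) * (y i * u i) +
        (((e : L) + 1) * y (i + 1) ^ e * (y (i + 1) * u (i + 1)) *
        y (i + 2) + y (i + 1) ^ (e + 1) * (y (i + 2) * u (i + 2)))) = 0 := by
        linear_combination hh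
      exact (mul_eq_zero.1 this).resolve_left e2
    have h4 : (y (i + 1) ^ (e + 1) * y (i + 2)) *
        ((u (i + 2) - u (i + 1)) + ((e : L) + 2) * (u (i + 1) - u i)) = 0 := by
      linear_combination h3 - u i * hc
    have h5 : (u (i + 2) - u (i + 1)) + ((e : L) + 2) * (u (i + 1) - u i) = 0 :=
      (mul_eq_zero.1 h4).resolve_left (mul_ne_zero (pow_ne_zero _ hy1) hy2)
    linear_combination h5
  have hend : u (n + 1) - u n = 0 := by
    have hh := h2
    rw [hv n (by omega), hv (n + 1) le_rfl] at hh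
    have h3 : y n ^ (e + 1) * (y n * u n) +
      ((e : L) + 3) * b * y (n + 1) ^ (e + 1) * (y (n + 1) * u (n + 1)) = 0 := by
      have : ((e : L) + 2) * (y n ^ (e + 1) * (y n * u n) +
        ((e : L) + 3) * b * y (n + 1) ^ (e + 1) * (y (n + 1) * u (n + 1))) = 0 := by
        linear_combination hh
      exact (mul_eq_zero.1 this).resolve_left e2
    have h4 : (((e : L) + 3) * b * y (n + 1) ^ (e + 2)) * (u (n + 1) - u n) = 0 := by
      linear_combination h3 - u n * c2
    exact (mul_eq_zero.1 h4).resolve_left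
      (mul_ne_zero (mul_ne_zero e3 hb) (pow_ne_zero _ yl))
  have hpow : ∀ i ≤ n, u (i + 1) - u i = (-((e : L) + 2)) ^ i * u 1 := by
    intro i
    induction i with
    | zero =>
      intro _
      have : u 0 = 0 := by simp [hu, v0]
      simp [this]
    | succ i ih =>
      intro hi
      rw [hrec i (by omega), ih (by omega)]
      ring
  have hu1 : u 1 = 0 := by
    have h3 := hpow n le_rfl
    rw [hend] at h3
    exact (mul_eq_zero.1 h3.symm).resolve_left (pow_ne_zero _ (neg_ne_zero.2 e2))
  have hall : ∀ i ≤ n + 1, u i = 0 := by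
    intro i
    induction i with
    | zero => intro _; simp [hu, v0]
    | succ i ih =>
      intro hi
      have h3 := hpow i (by omega)
      rw [hu1, mul_zero, ih (by omega), sub_zero] at h3
      exact h3
  intro i hi
  rw [hv i hi, hall i hi, mul_zero]

end Pool.Agent.U884.OD.EX2
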