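import Pool.Agent.U41.OD.Stm3
import Pool.Agent.TH214.RM.Crit
import Pool.Agent.U884.OD.EX2core

set_option autoImplicit false

namespace Pool.Agent.U41.OD

open Pool.Agent.H918R2.Quad Pool.Agent.TH214.RM MvPolynomial

section

variable {L : Type} [Field L]

theorem ex2_dC {σ : Type} (D : Derivation L (MvPolynomial σ L) (MvPolynomial σ L)) (a : L)
    (f : MvPolynomial σ L) : D (C a * f) = C a * D f := by
  rw [Derivation.leibniz, derivation_C, smul_zero, add_zero, smul_eq_mul]

/-- first derivative of the chain form -/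
theorem ex2_first (n e : ℕ) (b : L)
    (D : Derivation L (MvPolynomial (Fin (n + 2)) L) (MvPolynomial (Fin (n + 2)) L)) (u : ℕ → L)
    (hD : ∀ j : Fin (n + 2), D (X j) = C (u j)) :
    D (chainF n (e + 3) b) = ∑ i : Fin (n + 1),
      (C (((e : L) + 2) * u i) * (X i.castSucc ^ (e + 1) * X i.succ) +
        C (u (i + 1)) * X i.castSucc ^ (e + 2)) +
      C (((e : L) + 3) * b * u (n + 1)) * X (Fin.last (n + 1)) ^ (e + 2) := by
  unfold chainF
  rw [map_add, map_sum]
  congr 1
  · refine Finset.sum_congr rfl fun i _ => ?_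
    rw [Derivation.leibniz, Derivation.leibniz_pow, hD, hD]
    simp only [smul_eq_mul, nsmul_eq_mul, show e + 3 - 1 = e + 2 from rfl,
      show e + 2 - 1 = e + 1 from rfl, Fin.val_castSucc, Fin.val_succ, C_mul, C_add]
    have : (C ((e : L)) : MvPolynomial (Fin (n + 2)) L) = (e : MvPolynomial (Fin (n + 2)) L) :=
      map_natCast C e
    have h2 : (C ((2 : L)) : MvPolynomial (Fin (n + 2)) L) = 2 := map_ofNat C 2
    rw [this, h2]
    push_cast
    ring
  · rw [ex2_dC, Derivation.leibniz_pow, hD]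
    simp only [smul_eq_mul, nsmul_eq_mul, show e + 3 - 1 = e + 2 from rfl, Fin.val_last, C_mul,
      C_add]
    have : (C ((e : L)) : MvPolynomial (Fin (n + 2)) L) = (e : MvPolynomial (Fin (n + 2)) L) :=
      map_natCast C e
    have h2 : (C ((3 : L)) : MvPolynomial (Fin (n + 2)) L) = 3 := map_ofNat C 3
    rw [this, h2]
    push_cast
    ring

/-- second derivative of the chain form, evaluated -/
theorem ex2_second (n e : ℕ) (b : L)
    (D D' : Derivation L (MvPolynomial (Fin (n + 2)) L) (MvPolynomial (Fin (n + 2)) L))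
    (u v : ℕ → L) (hD : ∀ j : Fin (n + 2), D (X j) = C (u j))
    (hD' : ∀ j : Fin (n + 2), D' (X j) = C (v j)) (y : ℕ → L) :
    eval (fun j : Fin (n + 2) => y j) (D' (D (chainF n (e + 3) b))) = ∑ i : Fin (n + 1),
      (((e : L) + 2) * u i * (((e : L) + 1) * y i ^ e * v i * y (i + 1) +
        y i ^ (e + 1) * v (i + 1)) +
        u (i + 1) * (((e : L) + 2) * y i ^ (e + 1) * v i)) +
      ((e : L) + 3) * b * u (n + 1) * (((e : L) + 2) * y (n + 1) ^ (e + 1) * v (n + 1)) := by
  rw [ex2_first n e b D u hD, map_add, map_sum, map_add, map_sum]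
  congr 1
  · refine Finset.sum_congr rfl fun i _ => ?_
    rw [map_add, ex2_dC, ex2_dC, Derivation.leibniz, Derivation.leibniz_pow,
      Derivation.leibniz_pow, hD', hD']
    simp only [smul_eq_mul, nsmul_eq_mul, show e + 1 - 1 = e from rfl,
      show e + 2 - 1 = e + 1 from rfl, Fin.val_castSucc, Fin.val_succ, map_add, map_mul, map_pow,
      eval_C, eval_X, map_natCast]
    push_cast
    ring
  · rw [ex2_dC, Derivation.leibniz_pow, hD']
    simp only [smul_eq_mul, nsmul_eq_mul, show e + 2 - 1 = e + 1 from rfl, Fin.val_last, map_add,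
      map_mul, map_pow, eval_C, eval_X, map_natCast]
    push_cast
    ring

theorem ex2_first' (n e : ℕ) (b : L)
    (D : Derivation L (MvPolynomial (Fin (n + 2)) L) (MvPolynomial (Fin (n + 2)) L)) (u : ℕ → L)
    (hD : ∀ j : Fin (n + 2), D (X j) = C (u j)) (y : ℕ → L) :
    eval (fun j : Fin (n + 2) => y j) (D (chainF n (e + 3) b)) = ∑ i : Fin (n + 1),
      (((e : L) + 2) * u i * (y i ^ (e + 1) * y (i + 1)) + u (i + 1) * y i ^ (e + 2)) +
      ((e : L) + 3) * b * u (n + 1) * y (n + 1) ^ (e + 2) := by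
  rw [ex2_first n e b D u hD]
  simp

/-- indicator sums -/
theorem ex2_ind (n i : ℕ) (hi : i ≤ n) (f g : ℕ → L) :
    ∑ k : Fin (n + 1), ((if (k : ℕ) = i + 1 then 1 else 0) * f k +
      (if (k : ℕ) + 1 = i + 1 then 1 else 0) * g k) =
      (if i < n then f (i + 1) else 0) + g i := by
  rw [Finset.sum_add_distrib]
  congr 1
  · rw [Fin.sum_univ_eq_sum_range (fun k => (if k = i + 1 then (1 : L) else 0) * f k)]
    simp only [ite_mul, one_mul, zero_mul, Finset.sum_ite_eq', Finset.mem_range]
    simp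
  · rw [Fin.sum_univ_eq_sum_range (fun k => (if k + 1 = i + 1 then (1 : L) else 0) * g k)]
    simp only [add_left_inj, ite_mul, one_mul, zero_mul, Finset.sum_ite_eq', Finset.mem_range]
    rw [if_pos (by omega)]

theorem ex2_pd (n i : ℕ) (hi : i ≤ n) (j : Fin (n + 2)) :
    pderiv (⟨i + 1, by omega⟩ : Fin (n + 2)) (X j : MvPolynomial (Fin (n + 2)) L) =
      C (if (j : ℕ) = i + 1 then 1 else 0) := by
  rw [pderiv_X, Pi.single_apply]
  by_cases h : (j : ℕ) = i + 1
  · rw [if_pos h, if_pos (by ext; exact h)]; simp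
  · rw [if_neg h, if_neg (by intro h'; apply h; rw [h'])]; simp

/-- the critical equations -/
theorem ex2_crit (n e : ℕ) (b : L) (y : ℕ → L) (i : ℕ) (hi : i ≤ n) :
    eval (fun j : Fin (n + 2) => y j)
      (pderiv (⟨i + 1, by omega⟩ : Fin (n + 2)) (chainF n (e + 3) b)) =
      (if i < n then ((e : L) + 2) * y (i + 1) ^ (e + 1) * y (i + 2) else 0) + y i ^ (e + 2) +
      ((e : L) + 3) * b * (if n = i then 1 else 0) * y (n + 1) ^ (e + 2) := by
  rw [ex2_first' n e b _ (fun k => if k = i + 1 then 1 else 0) (ex2_pd n i hi) y]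
  have h := ex2_ind (L := L) n i hi (fun k => ((e : L) + 2) * y k ^ (e + 1) * y (k + 1))
    (fun k => y k ^ (e + 2))
  rw [← h]
  congr 1
  · refine Finset.sum_congr rfl fun k _ => ?_
    ring
  · simp

/-- the rows of the hessian -/
theorem ex2_row (n e : ℕ) (b : L) (y v : ℕ → L) (i : ℕ) (hi : i ≤ n)
    (D : Derivation L (MvPolynomial (Fin (n + 2)) L) (MvPolynomial (Fin (n + 2)) L))
    (hD : ∀ j : Fin (n + 2), D (X j) = C (v j)) :
    eval (fun j : Fin (n + 2) => y j)
      (D (pderiv (⟨i + 1, by omega⟩ : Fin (n + 2)) (chainF n (e + 3) b))) =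
      (if i < n then ((e : L) + 2) * (((e : L) + 1) * y (i + 1) ^ e * v (i + 1) * y (i + 2) +
        y (i + 1) ^ (e + 1) * v (i + 2)) else 0) + ((e : L) + 2) * y i ^ (e + 1) * v i +
      ((e : L) + 3) * b * (if n = i then 1 else 0) *
        (((e : L) + 2) * y (n + 1) ^ (e + 1) * v (n + 1)) := by
  rw [ex2_second n e b _ D (fun k => if k = i + 1 then 1 else 0) v (ex2_pd n i hi) hD y]
  have h := ex2_ind (L := L) n i hi (fun k => ((e : L) + 2) *
    (((e : L) + 1) * y k ^ e * v k * y (k + 1) + y k ^ (e + 1) * v (k + 1)))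
    (fun k => ((e : L) + 2) * y k ^ (e + 1) * v k)
  rw [← h]
  congr 1
  · refine Finset.sum_congr rfl fun k _ => ?_
    ring
  · simp

end

theorem ex2_sum {L : Type} [Field L] {σ ι : Type} (s : Finset ι)
    (D : ι → Derivation L (MvPolynomial σ L) (MvPolynomial σ L)) (P : MvPolynomial σ L) :
    (∑ j ∈ s, D j) P = ∑ j ∈ s, D j P := by
  have h := congrFun (map_sum (Derivation.coeFnAddMonoidHom) D s) P
  rw [Finset.sum_apply] at h
  exact h

/-- a derivation in a direction -/
theorem ex2_dir {L : Type} [Field L] {n : ℕ} (v : ℕ → L) (y : Fin (n + 2) → L)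
    (P : MvPolynomial (Fin (n + 2)) L) :
    eval y (mkDerivation L (fun j : Fin (n + 2) => (C (v j) : MvPolynomial (Fin (n + 2)) L)) P) =
      ∑ j : Fin (n + 2), v j * eval y (pderiv j P) := by
  have h : (mkDerivation L (fun j : Fin (n + 2) => (C (v j) : MvPolynomial (Fin (n + 2)) L))) =
      ∑ j : Fin (n + 2), v j • pderiv j := by
    apply derivation_ext
    intro i
    rw [mkDerivation_X]
    rw [ex2_sum]
    simp [pderiv_X, Pi.single_apply, smul_eq_C_mul]
  rw [h, ex2_sum]
  simp

theorem ex2_comm {L : Type} [Field L] {n : ℕ} (i j : Fin (n + 2))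
    (P : MvPolynomial (Fin (n + 2)) L) : pderiv i (pderiv j P) = pderiv j (pderiv i P) := by
  induction P using MvPolynomial.induction_on with
  | C a => simp
  | add p q hp hq => simp only [map_add]; rw [hp, hq]
  | mul_X p k hp =>
    simp only [Derivation.leibniz, map_add, smul_eq_mul, hp, pderiv_X, Pi.single_apply]
    split_ifs <;> simp <;> ring

theorem ex2_phi {K L : Type} [Field K] [Field L] {n : ℕ}
    (φ : MvPolynomial {j : Fin (n + 2) // j ≠ 0} K →+* L) (P : MvPolynomial (Fin (n + 2)) K) :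
    φ (deh 0 P) = eval (fun j => φ (tau 0 j)) (map (φ.comp C) P) := by
  induction P using MvPolynomial.induction_on with
  | C a => simp [deh]
  | add p q hp hq =>
    have : deh (0 : Fin (n + 2)) (p + q) = deh 0 p + deh 0 q := by simp [deh]
    rw [this, map_add, map_add, map_add, hp, hq]
  | mul_X p i hp =>
    have : deh (0 : Fin (n + 2)) (p * X i) = deh 0 p * tau 0 i := by simp [deh]
    rw [this, map_mul, map_mul, map_mul, hp, map_X, eval_X]

theorem ex2_map {K L : Type} [Field K] [Field L] (f : K →+* L) (n d : ℕ) (b : K) :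
    map f (chainF n d b) = chainF n d (f b) := by
  simp [chainF]

theorem ex2_main {K L : Type} [Field K] [Field L] [CharZero L] (n e : ℕ) (b : K) (hb : b ≠ 0)
    (φ : MvPolynomial {j : Fin (n + 2) // j ≠ 0} K →+* L)
    (hcrit : ∀ j, φ (pderiv j (deh 0 (chainF n (e + 3) b))) = 0)
    (hdet : φ (hess (deh 0 (chainF n (e + 3) b))).det = 0) : False := by
  set f : K →+* L := φ.comp C with hf
  have hfb : f b ≠ 0 := (map_ne_zero f).2 hb
  set y : ℕ → L := fun k => if h : k < n + 2 then φ (tau 0 ⟨k, h⟩) else 0 with hy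
  have hyF : (fun j : Fin (n + 2) => φ (tau 0 j)) = fun j : Fin (n + 2) => y j := by
    funext j
    simp [hy]
  have hy0 : y 0 = 1 := by
    simp [hy, tau]
  have hev : ∀ P : MvPolynomial (Fin (n + 2)) K, φ (deh 0 P) =
      eval (fun j : Fin (n + 2) => y j) (map f P) := by
    intro P
    rw [ex2_phi φ P, hyF]
  rw [RingHom.map_det, ← Matrix.exists_mulVec_eq_zero_iff] at hdet
  obtain ⟨v', hv', hMv⟩ := hdet
  set v : ℕ → L := fun k => if h : k < n + 2 then
    (if h' : (⟨k, h⟩ : Fin (n + 2)) ≠ 0 then v' ⟨⟨k, h⟩, h'⟩ else 0) else 0 with hv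
  have hvj : ∀ j : {j : Fin (n + 2) // j ≠ 0}, v (j : Fin (n + 2)) = v' j := by
    intro j
    have h1 : ((j : Fin (n + 2)) : ℕ) < n + 2 := (j : Fin (n + 2)).isLt
    simp only [hv, h1, dif_pos]
    rw [dif_pos j.2]
  have hv0 : v 0 = 0 := by
    simp [hv]
  have hrow : ∀ i : {j : Fin (n + 2) // j ≠ 0}, eval (fun j : Fin (n + 2) => y j)
      (mkDerivation L (fun j : Fin (n + 2) => (C (v j) : MvPolynomial (Fin (n + 2)) L))
        (pderiv (i : Fin (n + 2)) (chainF n (e + 3) (f b)))) = 0 := by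
    intro i
    have h1 := congrFun hMv i
    simp only [Matrix.mulVec, dotProduct, Pi.zero_apply, RingHom.mapMatrix_apply,
      Matrix.map_apply, hess, Matrix.of_apply] at h1
    rw [ex2_dir, Fintype.sum_eq_add_sum_subtype_ne _ (0 : Fin (n + 2))]
    simp only [Fin.val_zero, hv0, zero_mul, zero_add]
    rw [← h1]
    refine Finset.sum_congr rfl fun j _ => ?_
    rw [hvj j, mul_comm, pderiv_deh, pderiv_deh, hev, ← pderiv_map, ← pderiv_map, ex2_map,
      ex2_comm]
  have hc : ∀ i : {j : Fin (n + 2) // j ≠ 0}, eval (fun j : Fin (n + 2) => y j)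
      (pderiv (i : Fin (n + 2)) (chainF n (e + 3) (f b))) = 0 := by
    intro i
    have h1 := hcrit i
    rw [pderiv_deh, hev, ← pderiv_map, ex2_map] at h1
    exact h1
  have hne : ∀ i, (hi : i ≤ n) → (⟨i + 1, by omega⟩ : Fin (n + 2)) ≠ 0 := by
    intro i hi h
    have := congrArg Fin.val h
    simp at this
  have key := Pool.Agent.U884.OD.EX2.core n e (f b) hfb y v hy0 hv0
    (fun i hi => by
      have h1 := hc ⟨⟨i + 1, by omega⟩, hne i (by omega)⟩
      have h2 := ex2_crit n e (f b) y i (by omega)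
      rw [h2, if_pos hi, if_neg (by omega)] at h1
      linear_combination h1)
    (by
      have h1 := hc ⟨⟨n + 1, by omega⟩, hne n le_rfl⟩
      have h2 := ex2_crit n e (f b) y n le_rfl
      rw [h2, if_neg (lt_irrefl n), if_pos rfl] at h1
      linear_combination h1)
    (fun i hi => by
      have h1 := hrow ⟨⟨i + 1, by omega⟩, hne i (by omega)⟩
      have h2 := ex2_row n e (f b) y v i (by omega)
        (mkDerivation L (fun j : Fin (n + 2) => (C (v j) : MvPolynomial (Fin (n + 2)) L)))
        (fun j => mkDerivation_X L _ j)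
      rw [h2, if_pos hi, if_neg (by omega)] at h1
      linear_combination h1)
    (by
      have h1 := hrow ⟨⟨n + 1, by omega⟩, hne n le_rfl⟩
      have h2 := ex2_row n e (f b) y v n le_rfl
        (mkDerivation L (fun j : Fin (n + 2) => (C (v j) : MvPolynomial (Fin (n + 2)) L)))
        (fun j => mkDerivation_X L _ j)
      rw [h2, if_neg (lt_irrefl n), if_pos rfl] at h1
      linear_combination h1)
  apply hv'
  funext j
  rw [← hvj j]
  exact key _ (by have := (j : Fin (n + 2)).isLt; omega)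

/-- Package EX2: the critical points of `chainF (1, y)` are nondegenerate. -/
theorem EX2_ok : S_EX2 := by
  intro K _ _ n d b hd hb
  obtain ⟨e, rfl⟩ : ∃ e, d = e + 3 := ⟨d - 3, by omega⟩
  by_contra hcon
  have hI : Ideal.span (insert (hess (deh 0 (chainF n (e + 3) b))).det
      (Set.range fun j => pderiv j (deh 0 (chainF n (e + 3) b)))) ≠ ⊤ :=
    fun h => hcon (by rw [h]; trivial)
  obtain ⟨Q, hQ, hIQ⟩ := Ideal.exists_le_maximal _ hI
  let _ : Field (MvPolynomial {j : Fin (n + 2) // j ≠ 0} K ⧸ Q) := Ideal.Quotient.field Q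
  have _ : CharZero (MvPolynomial {j : Fin (n + 2) // j ≠ 0} K ⧸ Q) :=
    charZero_of_injective_algebraMap (algebraMap K _).injective
  refine ex2_main (L := MvPolynomial {j : Fin (n + 2) // j ≠ 0} K ⧸ Q) n e b hb
    (Ideal.Quotient.mk Q) (fun j => ?_) ?_
  · exact Ideal.Quotient.eq_zero_iff_mem.2
      (hIQ (Ideal.subset_span (Set.mem_insert_of_mem _ (Set.mem_range_self j))))
  · exact Ideal.Quotient.eq_zero_iff_mem.2 (hIQ (Ideal.subset_span (Set.mem_insert _ _)))

end Pool.Agent.U41.OD
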