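import Pool.Agent.U41.OD.Stm

/-! Project OD, package FR: a critical point with a value in `O` is rational (Frobenius). -/

set_option autoImplicit false

namespace Pool.Agent.U41.OD

open MvPolynomial
open Pool.Agent.TH214.RM

section fr

/-- a root of `X ^ q - X` in a domain which contains the field with `q` elements is in the field -/
theorem FR_root {κ D : Type} [Field κ] [Fintype κ] [CommRing D] [IsDomain D] (f : κ →+* D) (x : D)
    (hx : x ^ Fintype.card κ = x) : ∃ a : κ, x = f a := by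
  classical
  by_contra hne
  push Not at hne
  have hq : 1 < Fintype.card κ := Fintype.one_lt_card
  have hdeg : (Polynomial.X ^ Fintype.card κ - Polynomial.X : Polynomial D).natDegree
      = Fintype.card κ := by
    rw [Polynomial.natDegree_sub_eq_left_of_natDegree_lt, Polynomial.natDegree_X_pow]
    rw [Polynomial.natDegree_X_pow, Polynomial.natDegree_X]
    exact hq
  have h0 : (Polynomial.X ^ Fintype.card κ - Polynomial.X : Polynomial D) ≠ 0 := by
    intro h
    rw [h, Polynomial.natDegree_zero] at hdeg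
    omega
  let S : Finset D := insert x (Finset.univ.image f)
  have hS : S.card = Fintype.card κ + 1 := by
    rw [Finset.card_insert_of_notMem, Finset.card_image_of_injective _ f.injective,
      Finset.card_univ]
    intro h
    obtain ⟨a, -, ha⟩ := Finset.mem_image.1 h
    exact hne a ha.symm
  have hle : S.card ≤ (Polynomial.X ^ Fintype.card κ - Polynomial.X : Polynomial D).natDegree := by
    apply Polynomial.card_le_degree_of_subset_roots
    intro y hy
    have hy' : y ∈ S := by simpa using hy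
    rw [Polynomial.mem_roots h0, Polynomial.IsRoot.def, Polynomial.eval_sub, Polynomial.eval_pow,
      Polynomial.eval_X, sub_eq_zero]
    rcases Finset.mem_insert.1 hy' with h | h
    · rw [h, hx]
    · obtain ⟨a, -, ha⟩ := Finset.mem_image.1 h
      rw [← ha, ← map_pow, FiniteField.pow_card]
  rw [hdeg, hS] at hle
  omega

theorem FR_ok : S_FR := by
  intro O _ _ n G N c 𝔭 hmax hfin hN hcert Q hQ hQC hder hval
  classical
  haveI := hmax
  haveI := hQ
  letI : Field (O ⧸ 𝔭) := Ideal.Quotient.field 𝔭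
  letI : Fintype (O ⧸ 𝔭) := Fintype.ofFinite _
  set mk := Ideal.Quotient.mk Q with hmk
  -- the residue field in `D`
  let f : (O ⧸ 𝔭) →+* (MvPolynomial {j : Fin (n + 2) // j ≠ 0} O ⧸ Q) :=
    Ideal.Quotient.lift 𝔭 (mk.comp C) (fun a ha => by
      rw [RingHom.comp_apply]
      exact Ideal.Quotient.eq_zero_iff_mem.2 ((hQC a).2 ha))
  have hf : ∀ a : O, f (Ideal.Quotient.mk 𝔭 a) = mk (C a) := fun a => rfl
  obtain ⟨p, hp⟩ := CharP.exists (O ⧸ 𝔭)
  haveI := hp
  obtain ⟨m, hpp, hcard⟩ := FiniteField.card (O ⧸ 𝔭) p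
  haveI : Fact p.Prime := ⟨hpp⟩
  haveI : CharP (MvPolynomial {j : Fin (n + 2) // j ≠ 0} O ⧸ Q) p :=
    charP_of_injective_ringHom f.injective p
  obtain ⟨q, hq⟩ : ∃ q, q = Fintype.card (O ⧸ 𝔭) := ⟨_, rfl⟩
  have hq0 : q ≠ 0 := by
    rw [hq]
    exact Fintype.card_ne_zero
  let Fr : (MvPolynomial {j : Fin (n + 2) // j ≠ 0} O ⧸ Q) →+*
      (MvPolynomial {j : Fin (n + 2) // j ≠ 0} O ⧸ Q) := iterateFrobenius _ p m
  have hFr : ∀ x, Fr x = x ^ q := by
    intro x
    rw [hq, hcard]
    exact iterateFrobenius_def p m x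
  have hC : ∀ a : O, mk (C a) ^ q = mk (C a) := by
    intro a
    rw [← hf, ← map_pow, hq, FiniteField.pow_card]
  let phi : MvPolynomial ({j : Fin (n + 2) // j ≠ 0} ⊕ {j : Fin (n + 2) // j ≠ 0}) O →+*
      (MvPolynomial {j : Fin (n + 2) // j ≠ 0} O ⧸ Q) :=
    eval₂Hom (mk.comp C) (Sum.elim (fun l => mk (X l)) (fun l => (mk (X l)) ^ q))
  have hl : ∀ P : MvPolynomial {j : Fin (n + 2) // j ≠ 0} O, phi (rename Sum.inl P) = mk P := by
    intro P
    have h1 : phi.comp ((rename Sum.inl : MvPolynomial {j : Fin (n + 2) // j ≠ 0} O →ₐ[O]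
        MvPolynomial ({j : Fin (n + 2) // j ≠ 0} ⊕ {j : Fin (n + 2) // j ≠ 0}) O) : _ →+* _) = mk := by
      apply MvPolynomial.ringHom_ext
      · intro r
        simp [phi]
      · intro i
        simp [phi]
    exact RingHom.congr_fun h1 P
  have hr : ∀ P : MvPolynomial {j : Fin (n + 2) // j ≠ 0} O,
      phi (rename Sum.inr P) = (mk P) ^ q := by
    intro P
    have h1 : phi.comp ((rename Sum.inr : MvPolynomial {j : Fin (n + 2) // j ≠ 0} O →ₐ[O]
        MvPolynomial ({j : Fin (n + 2) // j ≠ 0} ⊕ {j : Fin (n + 2) // j ≠ 0}) O) : _ →+* _)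
        = Fr.comp mk := by
      apply MvPolynomial.ringHom_ext
      · intro r
        rw [RingHom.comp_apply Fr, hFr, hC]
        simp [phi]
      · intro i
        rw [RingHom.comp_apply Fr, hFr]
        simp [phi]
    have h2 := RingHom.congr_fun h1 P
    rw [RingHom.comp_apply Fr, hFr] at h2
    exact h2
  have hg : mk (deh 0 G) = mk (C (-c)) := by
    have h1 : mk (deh 0 G + C c) = 0 := Ideal.Quotient.eq_zero_iff_mem.2 hval
    rw [map_add] at h1
    rw [C_neg, map_neg]
    exact eq_neg_of_add_eq_zero_left h1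
  have hd : ∀ j, mk (pderiv j (deh 0 G)) = 0 := fun j => Ideal.Quotient.eq_zero_iff_mem.2 (hder j)
  have hker : Ideal.span (insert (rename Sum.inl (deh 0 G) - rename Sum.inr (deh 0 G))
        ((Set.range fun j => rename Sum.inl (pderiv j (deh 0 G))) ∪
          (Set.range fun j => rename Sum.inr (pderiv j (deh 0 G)))) :
        Set (MvPolynomial ({j : Fin (n + 2) // j ≠ 0} ⊕ {j : Fin (n + 2) // j ≠ 0}) O))
        ≤ RingHom.ker phi := by
    rw [Ideal.span_le]
    intro z hz
    rw [SetLike.mem_coe, RingHom.mem_ker]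
    rcases hz with rfl | ⟨j, rfl⟩ | ⟨j, rfl⟩
    · rw [map_sub, hl, hr, hg, hC, sub_self]
    · rw [hl, hd]
    · rw [hr, hd, zero_pow hq0]
  have key : ∀ l : {j : Fin (n + 2) // j ≠ 0}, (mk (X l)) ^ q = mk (X l) := by
    intro l
    obtain ⟨M, hM⟩ := hcert.sep l
    have h1 := hker hM
    rw [RingHom.mem_ker, map_mul, map_pow, map_sub, hl, hr] at h1
    have h2 : phi (C N) = mk (C N) := by simp [phi]
    rw [h2] at h1
    have h3 : mk (C N) ≠ 0 := by
      intro h4
      exact hN ((hQC N).1 (Ideal.Quotient.eq_zero_iff_mem.1 h4))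
    have h5 := (mul_eq_zero.1 h1).resolve_left h3
    exact (sub_eq_zero.1 (eq_zero_of_pow_eq_zero h5)).symm
  have key2 : ∀ l : {j : Fin (n + 2) // j ≠ 0}, ∃ a : O, X l - C a ∈ Q := by
    intro l
    obtain ⟨a, ha⟩ := FR_root f (mk (X l)) (by rw [← hq]; exact key l)
    obtain ⟨b, rfl⟩ := Ideal.Quotient.mk_surjective a
    refine ⟨b, ?_⟩
    rw [← Ideal.Quotient.eq_zero_iff_mem, map_sub, sub_eq_zero]
    exact ha
  choose a ha using key2
  exact ⟨a, ha⟩

end fr

end Pool.Agent.U41.OD
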